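import Mathlib

set_option autoImplicit false
open Finset

namespace Pool.Agent.H.MP_6eec66_an

open Classical in
lemma avg {ι : Type*} (U : Finset ι) (d : ι → ℕ) (H : ι → Finset ℕ) (N s : ℕ) (ν : ℕ → ℝ)
    (x : ι → ℝ) {ε : ℝ} (hν : ∀ n, 0 ≤ ν n) (h1 : ∑ n ∈ range N, ν n = 1) (hx : ∀ t, 0 ≤ x t)
    (hd : ∀ t ∈ U, d t ∈ H t) (hdN : ∀ t ∈ U, d t < N) (hH : ∀ t ∈ U, ∑ n ∈ H t, ν n ≤ ε)
    (hε : ε ≤ 1) (hF : ∀ ω : Fin (s + 1) → ℕ,
      ∑ t ∈ U.filter (fun t => ∃ j, ω j = d t ∧ ∀ j' ≠ j, ω j' ∉ H t), x t ≤ 1) :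
    (s + 1) * (1 - ε) ^ s * ∑ t ∈ U, ν (d t) * x t ≤ 1 := by
  set g : ι → Fin (s + 1) → Fin (s + 1) → ℕ → ℝ := fun t j j' m =>
    if j' = j then (if m = d t then ν m else 0) else (if m ∈ H t then 0 else ν m) with hg
  have g0 : ∀ t j j' m, 0 ≤ g t j j' m ∧ g t j j' m ≤ ν m := fun t j j' m => by
    have := hν m
    simp only [hg]
    split_ifs <;> exact ⟨by linarith, by linarith⟩
  set P := Fintype.piFinset fun _ : Fin (s + 1) => range N with hP
  have e1 : ∑ ω ∈ P, ∏ j, ν (ω j) = 1 := by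
    rw [hP, ← prod_univ_sum]
    simp [h1]
  have e2 : ∀ t ∈ U, ∀ j, ν (d t) * (1 - ε) ^ s ≤ ∑ ω ∈ P, ∏ j', g t j j' (ω j') := by
    intro t ht j
    rw [hP, ← prod_univ_sum (fun _ => range N) (g t j), ← mul_prod_erase _ _ (mem_univ j)]
    have a1 : ∑ m ∈ range N, g t j j m = ν (d t) := by simp [hg, hdN t ht]
    rw [a1]
    refine mul_le_mul_of_nonneg_left ?_ (hν _)
    have a2 : (1 - ε) ^ s = ∏ _j' ∈ univ.erase j, (1 - ε) := by simp
    rw [a2]
    refine prod_le_prod (fun _ _ => by linarith) fun j' hj' => ?_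
    have a3 : ∑ m ∈ range N, g t j j' m + ∑ m ∈ (range N).filter (· ∈ H t), ν m = 1 := by
      rw [sum_filter, ← sum_add_distrib, ← h1]
      refine sum_congr rfl fun m _ => ?_
      simp only [hg, if_neg (ne_of_mem_erase hj')]
      split_ifs <;> simp
    have a4 : ∑ m ∈ (range N).filter (· ∈ H t), ν m ≤ ∑ m ∈ H t, ν m :=
      sum_le_sum_of_subset_of_nonneg (fun m hm => (mem_filter.1 hm).2) fun m _ _ => hν m
    linarith [hH t ht]
  have e3 : ∀ t ∈ U, ∀ ω : Fin (s + 1) → ℕ, ∑ j, ∏ j', g t j j' (ω j') ≤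
      if ∃ j, ω j = d t ∧ ∀ j' ≠ j, ω j' ∉ H t then ∏ j, ν (ω j) else 0 := by
    intro t ht ω
    split_ifs with h
    · obtain ⟨j, h1, h2⟩ := h
      rw [sum_eq_single j (fun j' _ hj' => prod_eq_zero (mem_univ j') (by
        have : ω j' ≠ d t := fun e => h2 j' hj' (e ▸ hd t ht)
        simp [hg, this])) (by simp)]
      exact prod_le_prod (fun _ _ => (g0 _ _ _ _).1) fun _ _ => (g0 _ _ _ _).2
    · refine (sum_eq_zero fun j _ => ?_).le
      by_cases h1 : ω j = d t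
      · push Not at h
        obtain ⟨j', h2, h3⟩ := h j h1
        exact prod_eq_zero (mem_univ j') (by simp [hg, h2, h3])
      · exact prod_eq_zero (mem_univ j) (by simp [hg, h1])
  calc _ = ∑ t ∈ U, (∑ _j : Fin (s + 1), ν (d t) * (1 - ε) ^ s) * x t := by
        rw [mul_sum]
        refine sum_congr rfl fun t _ => ?_
        simp only [sum_const, card_univ, Fintype.card_fin, nsmul_eq_mul, Nat.cast_add, Nat.cast_one]
        ring
    _ ≤ ∑ t ∈ U, (∑ ω ∈ P,
          if ∃ j, ω j = d t ∧ ∀ j' ≠ j, ω j' ∉ H t then ∏ j, ν (ω j) else 0) * x t := by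
        refine sum_le_sum fun t ht => mul_le_mul_of_nonneg_right ?_ (hx t)
        refine (sum_le_sum fun j _ => e2 t ht j).trans ?_
        rw [sum_comm]
        exact sum_le_sum fun ω _ => e3 t ht ω
    _ = ∑ ω ∈ P, (∏ j, ν (ω j)) *
          ∑ t ∈ U.filter (fun t => ∃ j, ω j = d t ∧ ∀ j' ≠ j, ω j' ∉ H t), x t := by
        simp only [sum_mul, sum_filter, mul_sum]
        rw [sum_comm]
        refine sum_congr rfl fun ω _ => sum_congr rfl fun t _ => ?_
        split_ifs <;> simp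
    _ ≤ ∑ ω ∈ P, ∏ j, ν (ω j) := sum_le_sum fun ω _ =>
        mul_le_of_le_one_right (prod_nonneg fun _ _ => hν _) (hF ω)
    _ = 1 := e1

lemma dyadic {α b : ℝ} (hα : 0 ≤ α) (I : ℕ) :
    min b (2 ^ I * α) ≤ α + ∑ i ∈ range I, if 2 ^ i * α < b then 2 ^ i * α else 0 := by
  induction I with
  | zero => simp
  | succ I ih =>
    rw [sum_range_succ, pow_succ]
    split_ifs with h
    · rw [min_eq_right h.le] at ih
      linarith [min_le_right b (2 ^ I * 2 * α)]
    · rw [min_eq_left (not_lt.1 h)] at ih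
      linarith [min_le_left b (2 ^ I * 2 * α)]

lemma geom (I : ℕ) : ∑ i ∈ range I, ((i : ℝ) + 4) / 2 ^ i ≤ 10 - (2 * I + 10) / 2 ^ I := by
  induction I with
  | zero => simp
  | succ I ih =>
    rw [sum_range_succ]
    have : ((I : ℝ) + 4) / 2 ^ I = (2 * I + 10) / 2 ^ I - (2 * (I + 1 : ℕ) + 10) / 2 ^ (I + 1) := by
      push_cast
      field_simp
      ring
    linarith

lemma signs (N : ℕ) (h : ℕ → ℕ → ℝ) (k : ℕ) : ∃ ε : ℕ → ℝ, (∀ i, |ε i| = 1) ∧
    ∑ n ∈ range N, (∑ i ∈ range k, ε i * h i n) ^ 2 ≤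
      ∑ i ∈ range k, ∑ n ∈ range N, h i n ^ 2 := by
  induction k with
  | zero => exact ⟨fun _ => 1, by simp, by simp⟩
  | succ k ih =>
    obtain ⟨ε, h1, h2⟩ := ih
    obtain ⟨σ, hσ, hσ2⟩ : ∃ σ : ℝ, (σ = 1 ∨ σ = -1) ∧
        σ * ∑ n ∈ range N, (∑ i ∈ range k, ε i * h i n) * h k n ≤ 0 := by
      rcases le_total (∑ n ∈ range N, (∑ i ∈ range k, ε i * h i n) * h k n) 0 with a | a
      · exact ⟨1, Or.inl rfl, by linarith⟩
      · exact ⟨-1, Or.inr rfl, by linarith⟩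
    refine ⟨Function.update ε k σ, fun i => ?_, ?_⟩
    · rcases eq_or_ne i k with rfl | hi
      · rcases hσ with rfl | rfl <;> simp
      · simp [Function.update_of_ne hi, h1]
    · have e : ∀ n, (∑ i ∈ range (k + 1), Function.update ε k σ i * h i n) ^ 2 =
          (∑ i ∈ range k, ε i * h i n) ^ 2 + h k n ^ 2 +
            2 * σ * ((∑ i ∈ range k, ε i * h i n) * h k n) := fun n => by
        rw [sum_range_succ, Function.update_self, sum_congr rfl (g := fun i => ε i * h i n)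
          fun i hi => by rw [Function.update_of_ne (mem_range.1 hi).ne]]
        rcases hσ with rfl | rfl <;> ring
      simp only [e, sum_add_distrib, ← mul_sum]
      rw [sum_range_succ]
      linarith

end Pool.Agent.H.MP_6eec66_an
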