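import Pool.Agent.H.MP_6eec66_an.A

set_option autoImplicit false
open Finset

namespace Pool.Agent.H.MP_6eec66_an

/-- An enumeration of the nodes (depth, history). -/
noncomputable def nd : ℕ ≃ ℕ × (ℕ →₀ ℕ) := nonempty_equiv_of_countable.some

noncomputable def dep (i : ℕ) : ℕ := (nd i).1

noncomputable def wt (i m : ℕ) : ℝ := ((nd i).2 m : ℝ) / 2 ^ (m + 2)

def Val (i : ℕ) : Prop :=
  (∀ m, dep i < m → (nd i).2 m = 0) ∧ ∑ m ∈ range (dep i + 1), wt i m ^ 2 ≤ 1

def Pre (i j : ℕ) : Prop := dep i < dep j ∧ ∀ m ≤ dep i, wt i m = wt j m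

open Classical in
noncomputable def rk (i : ℕ) : ℕ := if Val i then dep i else i

def fam : Set (Finset ℕ) :=
  {F | (∀ i ∈ F, ∀ j ∈ F, ¬ Pre i j) ∧ ∀ i ∈ F, (F.image rk).card ≤ 4 ^ rk i}

lemma wt0 (i m : ℕ) : 0 ≤ wt i m := by unfold wt; positivity

lemma wt1 {i m : ℕ} (h : Val i) (hm : m ≤ dep i) : wt i m ≤ 1 := by
  have := (single_le_sum (f := fun m => wt i m ^ 2) (fun _ _ => sq_nonneg _)
    (mem_range.2 (Nat.lt_succ_of_le hm))).trans h.2
  nlinarith [wt0 i m]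

lemma fin (n : ℕ) : {i | Val i ∧ dep i = n}.Finite := by
  refine (((Set.finite_singleton n).prod (Set.finite_Iic (Finsupp.onFinset (range (n + 1))
    (fun m => if m ≤ n then 2 ^ (m + 2) else 0) fun m hm => ?_))).preimage
      (f := nd) nd.injective.injOn).subset ?_
  · rw [mem_range]
    by_contra h
    exact hm (if_neg (by omega))
  · rintro i ⟨h, rfl⟩
    refine ⟨rfl, fun m => ?_⟩
    simp only [Finsupp.onFinset_apply]
    split_ifs with hm
    · have := wt1 h hm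
      rw [wt, div_le_one (by positivity)] at this
      exact_mod_cast this
    · exact (h.1 m (not_le.1 hm)).le

noncomputable def V (n : ℕ) : Finset ℕ := (fin n).toFinset

lemma mem_V {n i : ℕ} : i ∈ V n ↔ Val i ∧ dep i = n := by simp [V]

lemma fam_sub {A : Finset ℕ} (hA : A ∈ fam) {B : Finset ℕ} (h : B ⊆ A) : B ∈ fam :=
  ⟨fun i hi j hj => hA.1 i (h hi) j (h hj), fun i hi =>
    (card_le_card (image_subset_image h)).trans (hA.2 i (h hi))⟩

lemma fam_single (i : ℕ) : ({i} : Finset ℕ) ∈ fam :=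
  ⟨fun a ha b hb h => by
    rw [mem_singleton.1 ha, mem_singleton.1 hb] at h
    exact h.1.false, fun a _ => by simpa using Nat.one_le_pow _ _ (by norm_num)⟩

lemma fam_cpt (M : Set ℕ) (hM : M.Infinite) : ∃ A : Finset ℕ, (↑A : Set ℕ) ⊆ M ∧ A ∉ fam := by
  classical
  obtain ⟨i, hi⟩ := hM.nonempty
  have h1 : (rk '' M).Infinite := fun h => hM (h.of_finite_fibers rk fun n _ =>
    ((fin n).insert n).subset fun j hj => by
      have := hj.2
      simp only [Set.mem_preimage, Set.mem_singleton_iff, rk] at this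
      split_ifs at this with hv
      · exact Or.inr ⟨hv, this⟩
      · exact Or.inl this)
  obtain ⟨B, hB, hc⟩ := h1.exists_subset_card_eq (4 ^ rk i + 1)
  obtain ⟨A, hA, rfl⟩ := Finset.subset_set_image_iff.1 hB
  refine ⟨insert i A, by simpa [Set.insert_subset_iff] using ⟨hi, hA⟩, fun h => ?_⟩
  have := (card_le_card (image_subset_image (f := rk) (subset_insert i A))).trans
    (h.2 i (mem_insert_self _ _))
  omega

lemma V_mem (n : ℕ) : V n ∈ fam := by
  refine ⟨fun i hi j hj h => ?_, fun i _ => le_trans (card_le_one.2 fun a ha b hb => ?_)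
    (Nat.one_le_pow _ _ (by norm_num))⟩
  · have := h.1
    rw [(mem_V.1 hi).2, (mem_V.1 hj).2] at this
    exact this.false
  · obtain ⟨a, h1, rfl⟩ := mem_image.1 ha
    obtain ⟨b, h2, rfl⟩ := mem_image.1 hb
    rw [rk, rk, if_pos (mem_V.1 h1).1, if_pos (mem_V.1 h2).1, (mem_V.1 h1).2, (mem_V.1 h2).2]

lemma layer {N : ℕ} {α x : ℕ → ℝ} (hα : ∀ n, 0 ≤ α n) (h1 : ∑ n ∈ range N, α n ^ 2 = 1)
    (hx : ∀ i, 0 ≤ x i) (hF : ∀ F ∈ fam, ∑ i ∈ F, x i ≤ 1) (l : ℕ) :
    ∑ n ∈ range N, ∑ i ∈ V n, (if 2 ^ l * α n < wt i n then α n ^ 2 * x i else 0) ≤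
      (l + 4) / 4 ^ l := by
  classical
  have h4 : (4 : ℝ) ^ l = (2 ^ l) ^ 2 := by rw [← pow_mul, mul_comm, pow_mul]; norm_num
  have hlt : ∀ n b, 2 ^ l * α n < b → α n ^ 2 ≤ b ^ 2 / 4 ^ l := fun n b h => by
    rw [le_div_iff₀ (by positivity), h4, ← mul_pow, mul_comm]
    exact pow_le_pow_left₀ (mul_nonneg (by positivity) (hα n)) h.le 2
  rw [← sum_filter_add_sum_filter_not (range N) (· < l), add_div]
  refine add_le_add ?_ ?_
  · refine (sum_le_sum (g := fun _ => 1 / 4 ^ l) fun n _ => ?_).trans ?_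
    · refine (sum_le_sum (g := fun i => 1 / 4 ^ l * x i) fun i hi => ?_).trans ?_
      · split_ifs with h
        · refine mul_le_mul_of_nonneg_right ((hlt n _ h).trans ?_) (hx i)
          have := wt1 (mem_V.1 hi).1 (mem_V.1 hi).2.ge
          gcongr
          exact pow_le_one₀ (wt0 _ _) this
        · exact mul_nonneg (by positivity) (hx i)
      · rw [← mul_sum]
        exact mul_le_of_le_one_right (by positivity) (hF _ (V_mem n))
    · rw [sum_const, nsmul_eq_mul, mul_one_div]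
      gcongr
      simpa using card_le_card (fun n hn => mem_range.2 (mem_filter.1 hn).2 :
        (range N).filter (· < l) ⊆ range l)
  · set U := (((range N).filter fun n => ¬ n < l).biUnion V).filter
      fun i => 2 ^ l * α (dep i) < wt i (dep i) with hU
    have mU : ∀ i ∈ U, Val i ∧ dep i < N ∧ l ≤ dep i ∧ 2 ^ l * α (dep i) < wt i (dep i) := by
      intro i hi
      simp only [hU, mem_filter, mem_biUnion, mem_V, mem_range] at hi
      obtain ⟨⟨n, ⟨a, b⟩, c, rfl⟩, d⟩ := hi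
      exact ⟨c, a, not_lt.1 b, d⟩
    have e : ∑ n ∈ (range N).filter fun n => ¬ n < l, ∑ i ∈ V n,
        (if 2 ^ l * α n < wt i n then α n ^ 2 * x i else 0) = ∑ i ∈ U, α (dep i) ^ 2 * x i := by
      rw [hU, sum_filter (fun i => 2 ^ l * α (dep i) < wt i (dep i)), sum_biUnion
        (fun a _ b _ hab => disjoint_left.2 fun i ha hb =>
          hab ((mem_V.1 ha).2.symm.trans (mem_V.1 hb).2))]
      exact sum_congr rfl fun n _ => sum_congr rfl fun i hi => by rw [(mem_V.1 hi).2]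
    have q1 : 1 ≤ 4 ^ l := Nat.one_le_pow _ _ (by norm_num)
    have q2 : (1 : ℝ) ≤ 4 ^ l := by exact_mod_cast q1
    have h2 := avg U dep (fun i => (range (dep i + 1)).filter fun m => 2 ^ l * α m < wt i m) N
      (4 ^ l / 2) (fun n => α n ^ 2) x (ε := 1 / 4 ^ l) (fun _ => sq_nonneg _) h1 hx
      (fun i hi => mem_filter.2 ⟨self_mem_range_succ _, (mU i hi).2.2.2⟩)
      (fun i hi => (mU i hi).2.1) (fun i hi => by
        refine (sum_le_sum fun m hm => hlt m _ (mem_filter.1 hm).2).trans ?_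
        rw [← sum_div]
        gcongr
        exact (sum_le_sum_of_subset_of_nonneg (filter_subset _ _) fun _ _ _ => sq_nonneg _).trans
          (mU i hi).1.2)
      (by rw [div_le_one (by positivity)]; exact q2) (fun ω => by
        refine hF _ ⟨fun i hi j hj h => ?_, fun i hi => ?_⟩
        · obtain ⟨a1, a, a2, -⟩ := mem_filter.1 hi
          obtain ⟨-, b, b2, b3⟩ := mem_filter.1 hj
          refine b3 a (fun e => h.1.ne ?_) (mem_filter.2 ⟨mem_range.2 ?_, ?_⟩)
          · rw [← a2, ← b2, e]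
          · rw [a2]
            exact h.1.trans (Nat.lt_succ_self _)
          · rw [a2, ← h.2 _ le_rfl]
            exact (mU i a1).2.2.2
        · refine (card_le_card (t := univ.image ω) fun n hn => ?_).trans (card_image_le.trans ?_)
          · obtain ⟨j, hj, rfl⟩ := mem_image.1 hn
            obtain ⟨a1, a, a2, -⟩ := mem_filter.1 hj
            exact mem_image.2 ⟨a, mem_univ _, by rw [a2, rk, if_pos (mU j a1).1]⟩
          · have a1 := mU i (mem_filter.1 hi).1
            have := Nat.pow_le_pow_right (by norm_num : 0 < 4) a1.2.2.1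
            rw [card_univ, Fintype.card_fin, rk, if_pos a1.1]
            omega)
    rw [e, le_div_iff₀ (by positivity)]
    have s1 : 2 * ((4 ^ l / 2 : ℕ) : ℝ) ≤ 4 ^ l := by
      exact_mod_cast (by omega : 2 * (4 ^ l / 2) ≤ 4 ^ l)
    have s2 : (4 : ℝ) ^ l ≤ 2 * (((4 ^ l / 2 : ℕ) : ℝ) + 1) := by
      exact_mod_cast (by omega : 4 ^ l ≤ 2 * (4 ^ l / 2 + 1))
    have s3 := one_add_mul_le_pow (a := -(1 / 4 ^ l : ℝ)) (by
      have : (1 / 4 ^ l : ℝ) ≤ 1 := by rw [div_le_one (by positivity)]; exact q2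
      linarith) (4 ^ l / 2)
    have s4 : ((4 ^ l / 2 : ℕ) : ℝ) * (1 / 4 ^ l) ≤ 1 / 2 := by
      rw [mul_one_div, div_le_iff₀ (by positivity)]
      linarith
    have s5 : 0 ≤ ∑ i ∈ U, α (dep i) ^ 2 * x i :=
      sum_nonneg fun i _ => mul_nonneg (sq_nonneg _) (hx i)
    have s6 : (4 : ℝ) ^ l / 4 ≤ (((4 ^ l / 2 : ℕ) : ℝ) + 1) * (1 - 1 / 4 ^ l) ^ (4 ^ l / 2) := by
      rw [← sub_eq_add_neg] at s3
      nlinarith
    nlinarith [mul_le_mul_of_nonneg_right s6 s5]

lemma upper {N : ℕ} {α x : ℕ → ℝ} (hα : ∀ n, 0 ≤ α n) (h1 : ∑ n ∈ range N, α n ^ 2 = 1)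
    (hx : ∀ i, 0 ≤ x i) (hF : ∀ F ∈ fam, ∑ i ∈ F, x i ≤ 1) :
    ∑ n ∈ range N, ∑ i ∈ V n, α n * wt i n * x i ≤ 11 := by
  obtain ⟨I, hI⟩ : ∃ I : ℕ, ∀ n ∈ range N, α n ≠ 0 → 1 ≤ 2 ^ I * α n := by
    refine ((Filter.eventually_all_finset (l := Filter.atTop) (range N)).2 fun n _ => ?_).exists
    by_cases h : α n = 0
    · simp [h]
    · filter_upwards [((tendsto_pow_atTop_atTop_of_one_lt (one_lt_two (α := ℝ))).atTop_mul_const
        ((hα n).lt_of_ne' h)).eventually_ge_atTop 1] with I hI _ using hI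
  have h2 : ∀ n ∈ range N, ∀ i ∈ V n, α n * wt i n * x i ≤ α n ^ 2 * x i +
      ∑ l ∈ range I, 2 ^ l * (if 2 ^ l * α n < wt i n then α n ^ 2 * x i else 0) := by
    intro n hn i hi
    by_cases h : α n = 0
    · simp [h]
    have a1 := dyadic (b := wt i n) (hα n) I
    rw [min_eq_left ((wt1 (mem_V.1 hi).1 (mem_V.1 hi).2.ge).trans (hI n hn h))] at a1
    refine (mul_le_mul_of_nonneg_right (mul_le_mul_of_nonneg_left a1 (hα n)) (hx i)).trans_eq ?_
    rw [mul_add, add_mul, mul_sum, sum_mul, sq]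
    congr 1
    refine sum_congr rfl fun l _ => ?_
    split_ifs <;> ring
  refine (sum_le_sum fun n hn => sum_le_sum (h2 n hn)).trans ?_
  simp only [sum_add_distrib, ← mul_sum]
  have a1 : ∑ n ∈ range N, α n ^ 2 * ∑ i ∈ V n, x i ≤ 1 :=
    (sum_le_sum fun n _ => mul_le_of_le_one_right (sq_nonneg _) (hF _ (V_mem n))).trans h1.le
  have a2 : ∑ n ∈ range N, ∑ i ∈ V n, ∑ l ∈ range I,
      2 ^ l * (if 2 ^ l * α n < wt i n then α n ^ 2 * x i else 0) ≤
      ∑ l ∈ range I, ((l : ℝ) + 4) / 2 ^ l := by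
    simp only [sum_comm (t := range I), ← mul_sum]
    refine sum_le_sum fun l _ => (mul_le_mul_of_nonneg_left (layer hα h1 hx hF l)
      (by positivity)).trans_eq ?_
    rw [show (4 : ℝ) ^ l = 2 ^ l * 2 ^ l by rw [← mul_pow]; norm_num]
    field_simp
  have a3 := geom I
  have a4 : (0 : ℝ) ≤ (2 * I + 10) / 2 ^ I := by positivity
  linarith

lemma branch {N : ℕ} {α : ℕ → ℝ} (hα : ∀ n, 0 ≤ α n) (h1 : ∑ n ∈ range N, α n ^ 2 = 1) :
    ∃ t : ℕ → ℕ, (∀ n < N, t n ∈ V n) ∧ (∀ m n, m < n → Pre (t m) (t n)) ∧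
      1 / 2 ≤ ∑ n ∈ range N, α n * wt (t n) n := by
  set t : ℕ → ℕ := fun n => nd.symm (n, Finsupp.onFinset (range (n + 1))
    (fun m => if m ≤ n then ⌊α m * 2 ^ (m + 2)⌋₊ else 0) fun m hm => by
      rw [mem_range]
      by_contra h
      exact hm (if_neg (by omega))) with ht
  have hd : ∀ n, dep (t n) = n := fun n => by simp [ht, dep]
  have hw : ∀ n m, m ≤ n → wt (t n) m = ⌊α m * 2 ^ (m + 2)⌋₊ / 2 ^ (m + 2) := fun n m h => by
    simp [ht, wt, h]
  have ha : ∀ n < N, ∑ m ∈ range (n + 1), α m ^ 2 ≤ 1 := fun n hn =>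
    (sum_le_sum_of_subset_of_nonneg (range_subset_range.2 hn) fun _ _ _ => sq_nonneg _).trans h1.le
  refine ⟨t, fun n hn => mem_V.2 ⟨⟨fun m hm => ?_, ?_⟩, hd n⟩, fun m n h => ⟨?_, fun k hk => ?_⟩, ?_⟩
  · rw [hd] at hm
    simp [ht, hm]
  · rw [hd]
    refine (sum_le_sum fun m hm => pow_le_pow_left₀ (wt0 _ _) ?_ 2).trans (ha n hn)
    rw [hw n m (Nat.lt_succ_iff.1 (mem_range.1 hm)), div_le_iff₀ (by positivity)]
    exact Nat.floor_le (mul_nonneg (hα m) (by positivity))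
  · rwa [hd, hd]
  · rw [hd] at hk
    rw [hw m k hk, hw n k (hk.trans h.le)]
  · have a1 : ∀ n ∈ range N, α n ^ 2 - (1 / 2) ^ n / 4 ≤ α n * wt (t n) n := fun n hn => by
      have b1 : α n ≤ 1 := by
        have := (single_le_sum (f := fun m => α m ^ 2) (fun _ _ => sq_nonneg _) hn).trans h1.le
        nlinarith [hα n]
      have b2 : α n - (1 / 2) ^ n / 4 ≤ wt (t n) n := by
        rw [hw n n le_rfl, le_div_iff₀ (by positivity), sub_mul, show ((1 : ℝ) / 2) ^ n / 4 *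
          2 ^ (n + 2) = 1 by rw [one_div, inv_pow, pow_add]; field_simp; norm_num]
        exact (Nat.sub_one_lt_floor _).le
      have b3 : (0 : ℝ) ≤ (1 / 2) ^ n / 4 := by positivity
      nlinarith [mul_le_mul_of_nonneg_left b2 (hα n)]
    have a2 := sum_le_sum a1
    rw [sum_sub_distrib, h1, ← sum_div] at a2
    linarith [sum_geometric_two_le N]

end Pool.Agent.H.MP_6eec66_an
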