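import Pool.Agent.H.MP_6eec66_an.B

set_option autoImplicit false
open Finset
open scoped ENNReal

namespace Pool.Agent.H.MP_6eec66_an

abbrev Φ : Type := {p : Finset ℕ × (ℕ → ℝ) // p.1 ∈ fam ∧ ∀ i, |p.2 i| ≤ 1}

abbrev L : Type := lp (fun _ : Φ => ℝ) ∞

noncomputable def u (i : ℕ) : L :=
  ⟨fun p => if i ∈ p.1.1 then p.1.2 i else 0, memℓp_infty ⟨1, by
    rintro _ ⟨p, rfl⟩
    dsimp only
    split_ifs
    · exact p.2.2 i
    · simp⟩⟩

lemma u_apply (i : ℕ) (p : Φ) : u i p = if i ∈ p.1.1 then p.1.2 i else 0 := rfl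

noncomputable def S : Submodule ℝ L := (Submodule.span ℝ (Set.range u)).topologicalClosure

abbrev E : Type := S

instance : CompleteSpace E := (Submodule.isClosed_topologicalClosure _).completeSpace_coe

noncomputable def e (i : ℕ) : E :=
  ⟨u i, Submodule.le_topologicalClosure _ (Submodule.subset_span ⟨i, rfl⟩)⟩

noncomputable def ev (p : Φ) : E →L[ℝ] ℝ := (lp.evalCLM ℝ (fun _ : Φ => ℝ) ∞ p).comp S.subtypeL

noncomputable def co (i : ℕ) : E →L[ℝ] ℝ := ev ⟨({i}, fun _ => 1), fam_single i, by simp⟩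

lemma ev_e (p : Φ) (i : ℕ) : ev p (e i) = if i ∈ p.1.1 then p.1.2 i else 0 := rfl

lemma co_e (i j : ℕ) : co i (e j) = if j = i then 1 else 0 := by simp [co, ev_e]

lemma ev_le (p : Φ) (x : E) : |ev p x| ≤ ‖x‖ := lp.norm_apply_le_norm ENNReal.top_ne_zero x.1 p

lemma norm_le (x : E) {C : ℝ} (hC : 0 ≤ C) (h : ∀ p, |ev p x| ≤ C) : ‖x‖ ≤ C :=
  lp.norm_le_of_forall_le hC h

lemma dense : Dense (Submodule.span ℝ (Set.range e) : Set E) := by
  rw [Subtype.dense_iff]
  refine closure_mono (fun x hx => ?_)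
  have : Submodule.span ℝ (Set.range u) = (Submodule.span ℝ (Set.range e)).map S.subtype := by
    rw [Submodule.map_span, ← Set.range_comp]
    rfl
  rw [this] at hx
  exact hx

lemma ev_eq (p : Φ) : ev p = ∑ i ∈ p.1.1, p.1.2 i • co i :=
  ContinuousLinearMap.ext_on dense (by
    rintro _ ⟨j, rfl⟩
    simp [ev_e, co_e])

lemma sgn (a : ℝ) : |(SignType.sign a : ℝ)| ≤ 1 ∧ SignType.sign a * a = |a| := by
  rcases lt_trichotomy a 0 with h | rfl | h
  · simp [h, abs_of_neg h]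
  · simp
  · simp [h, abs_of_pos h]

lemma co_le {F : Finset ℕ} (hF : F ∈ fam) (x : E) : ∑ i ∈ F, |co i x| ≤ ‖x‖ := by
  have := ev_le ⟨(F, fun i => SignType.sign (co i x)), hF, fun i => (sgn _).1⟩ x
  rw [ev_eq] at this
  simp only [_root_.sum_apply, _root_.smul_apply, smul_eq_mul,
    (sgn _).2] at this
  exact (le_abs_self _).trans this

lemma norm_le' (x : E) {C : ℝ} (h : ∀ F ∈ fam, ∑ i ∈ F, |co i x| ≤ C) : ‖x‖ ≤ C := by
  refine norm_le x ((sum_nonneg fun _ _ => abs_nonneg _).trans (h _ (fam_single 0))) fun p => ?_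
  rw [ev_eq, _root_.sum_apply]
  refine ((abs_sum_le_sum_abs _ _).trans (sum_le_sum fun i _ => ?_)).trans (h _ p.2.1)
  rw [_root_.smul_apply, smul_eq_mul, abs_mul]
  exact mul_le_of_le_one_left (abs_nonneg _) (p.2.2 i)

lemma norm_eq (n : ℕ) (a : ℕ → ℝ) : ‖∑ i ∈ range n, a i • e i‖ =
    sSup ((fun F : Finset ℕ => ∑ i ∈ F ∩ range n, |a i|) '' fam) := by
  have h : ∀ F : Finset ℕ, ∑ i ∈ F, |co i (∑ i ∈ range n, a i • e i)| =
      ∑ i ∈ F ∩ range n, |a i| := fun F => by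
    rw [← filter_mem_eq_inter, sum_filter]
    refine sum_congr rfl fun i _ => ?_
    simp only [map_sum, map_smul, co_e, smul_eq_mul, mul_ite, mul_one, mul_zero, sum_ite_eq']
    split_ifs <;> simp
  have h2 : ∀ y ∈ (fun F : Finset ℕ => ∑ i ∈ F ∩ range n, |a i|) '' fam,
      y ≤ ‖∑ i ∈ range n, a i • e i‖ := by
    rintro _ ⟨F, hF, rfl⟩
    exact (h F).symm.trans_le (co_le hF _)
  exact le_antisymm (norm_le' _ fun F hF => (h F).trans_le (le_csSup ⟨_, h2⟩ ⟨F, hF, rfl⟩))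
    (csSup_le ⟨_, _, fam_single 0, rfl⟩ h2)

noncomputable def f (n : ℕ) : E →L[ℝ] ℝ := ∑ i ∈ V n, wt i n • co i

lemma two_sided (N : ℕ) (a : ℕ → ℝ) :
    √(∑ n ∈ range N, a n ^ 2) / 2 ≤ ‖∑ n ∈ range N, a n • f n‖ ∧
      ‖∑ n ∈ range N, a n • f n‖ ≤ 11 * √(∑ n ∈ range N, a n ^ 2) := by
  have h0 : 0 ≤ ∑ n ∈ range N, a n ^ 2 := by positivity
  rcases h0.eq_or_lt with h | h
  · rw [sum_eq_zero (f := fun n => a n • f n) fun n hn => by
      rw [pow_eq_zero_iff two_ne_zero |>.1 ((sum_eq_zero_iff_of_nonneg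
        fun _ _ => sq_nonneg _).1 h.symm n hn), zero_smul], ← h]
    simp only [Real.sqrt_zero, zero_div, mul_zero]
    exact ⟨ContinuousLinearMap.opNorm_zero.ge, ContinuousLinearMap.opNorm_zero.le⟩
  set ρ := √(∑ n ∈ range N, a n ^ 2) with hρ
  have hρ0 : 0 < ρ := Real.sqrt_pos.2 h
  have hα : ∀ n, 0 ≤ |a n| / ρ := fun n => by positivity
  have h1 : ∑ n ∈ range N, (|a n| / ρ) ^ 2 = 1 := by
    simp only [div_pow, sq_abs, ← sum_div]
    rw [hρ, Real.sq_sqrt h0, div_self h.ne']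
  constructor
  · obtain ⟨t, t1, t2, t3⟩ := branch hα h1
    have inj : ∀ m n, t m = t n → m = n := fun m n hmn => by
      rcases lt_trichotomy m n with h | h | h
      · exact absurd (hmn ▸ (t2 m n h).1) (lt_irrefl _)
      · exact h
      · exact absurd (hmn ▸ (t2 n m h).1) (lt_irrefl _)
    set x : E := ∑ n ∈ range N, (SignType.sign (a n) : ℝ) • e (t n) with hx
    have hc : ∀ i, co i x = ∑ n ∈ range N, if t n = i then (SignType.sign (a n) : ℝ) else 0 := by
      intro i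
      simp [hx, co_e]
    have hx1 : ‖x‖ ≤ 1 := norm_le' x fun F hF => by
      refine (sum_le_sum (g := fun i => ∑ n ∈ range N, if t n = i then (1 : ℝ) else 0)
        fun i _ => ?_).trans ?_
      · rw [hc]
        refine (abs_sum_le_sum_abs _ _).trans (sum_le_sum fun n _ => ?_)
        split_ifs
        · exact (sgn _).1
        · simp
      · rw [sum_comm]
        simp only [sum_ite_eq, sum_boole, Nat.cast_le_one]
        refine card_le_one.2 fun m hm n hn => ?_
        rcases lt_trichotomy m n with h | h | h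
        · exact absurd (t2 m n h) (hF.1 _ (mem_filter.1 hm).2 _ (mem_filter.1 hn).2)
        · exact h
        · exact absurd (t2 n m h) (hF.1 _ (mem_filter.1 hn).2 _ (mem_filter.1 hm).2)
    have hf : ∀ n ∈ range N, f n x = SignType.sign (a n) * wt (t n) n := fun n hn => by
      simp only [f, _root_.sum_apply, _root_.smul_apply, smul_eq_mul,
        hc, mul_sum]
      rw [sum_comm, sum_eq_single n (fun m hm hmn => sum_eq_zero fun i hi => ?_)
        (fun h => absurd hn h)]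
      · simp [t1 n (mem_range.1 hn), mul_comm]
      · rw [if_neg, mul_zero]
        rintro rfl
        exact hmn ((mem_V.1 (t1 m (mem_range.1 hm))).2.symm.trans (mem_V.1 hi).2)
    have h2 := (∑ n ∈ range N, a n • f n).le_opNorm x
    rw [_root_.sum_apply, sum_congr rfl (g := fun n => ρ * (|a n| / ρ * wt (t n) n))
      fun n hn => by
        rw [_root_.smul_apply, hf n hn, smul_eq_mul, ← mul_assoc, mul_comm (a n),
          (sgn _).2]
        field_simp, ← mul_sum] at h2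
    have h3 := mul_le_of_le_one_right (norm_nonneg (∑ n ∈ range N, a n • f n)) hx1
    have h4 := (le_abs_self _).trans (h2.trans h3)
    nlinarith
  · refine ContinuousLinearMap.opNorm_le_of_unit_norm (by positivity) fun x hx => ?_
    have h2 := upper hα h1 (x := fun i => |co i x|) (fun _ => abs_nonneg _)
      fun F hF => (co_le hF x).trans hx.le
    rw [mul_comm]
    refine le_trans ?_ (mul_le_mul_of_nonneg_left h2 hρ0.le)
    rw [_root_.sum_apply, mul_sum]
    refine (norm_sum_le _ _).trans (sum_le_sum fun n _ => ?_)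
    simp only [f, _root_.sum_apply, _root_.smul_apply, smul_eq_mul,
      mul_sum]
    refine (norm_sum_le _ _).trans (sum_le_sum fun i _ => le_of_eq ?_)
    rw [Real.norm_eq_abs, abs_mul, abs_mul, abs_of_nonneg (wt0 _ _)]
    field_simp

lemma ex : ∃ (E : Type) (_ : NormedAddCommGroup E) (_ : NormedSpace ℝ E) (_ : CompleteSpace E)
    (e : ℕ → E) (f : ℕ → E →L[ℝ] ℝ), Dense (Submodule.span ℝ (Set.range e) : Set E) ∧
    (∀ (n : ℕ) (a : ℕ → ℝ), ‖∑ i ∈ range n, a i • e i‖ =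
      sSup ((fun F : Finset ℕ => ∑ i ∈ F ∩ range n, |a i|) '' fam)) ∧
    ∀ (N : ℕ) (a : ℕ → ℝ), √(∑ n ∈ range N, a n ^ 2) / 2 ≤ ‖∑ n ∈ range N, a n • f n‖ ∧
      ‖∑ n ∈ range N, a n • f n‖ ≤ 11 * √(∑ n ∈ range N, a n ^ 2) :=
  ⟨E, inferInstance, inferInstance, inferInstance, e, f, dense, norm_eq, two_sided⟩

variable {G : Type*} [NormedAddCommGroup G] [NormedSpace ℝ G] {f : ℕ → G}

lemma not_fin (two_sided : ∀ (N : ℕ) (a : ℕ → ℝ),
    √(∑ n ∈ range N, a n ^ 2) / 2 ≤ ‖∑ n ∈ range N, a n • f n‖ ∧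
      ‖∑ n ∈ range N, a n • f n‖ ≤ 11 * √(∑ n ∈ range N, a n ^ 2)) :
    ¬ FiniteDimensional ℝ (Submodule.span ℝ (Set.range f)).topologicalClosure := by
  intro h
  have h1 : LinearIndependent ℝ f := by
    refine linearIndependent_iff''.2 fun s g hg h0 i => ?_
    obtain ⟨N, hN⟩ := (insert i s).exists_nat_subset_range
    have h2 := (two_sided N g).1
    rw [← sum_subset (f := fun n => g n • f n) ((subset_insert i s).trans hN)
      (fun j _ hj => by rw [hg j hj, zero_smul]), h0, norm_zero] at h2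
    have h3 := Real.sqrt_eq_zero'.1 (le_antisymm (by linarith) (Real.sqrt_nonneg
      (∑ n ∈ range N, g n ^ 2)))
    have h4 := (single_le_sum (f := fun n => g n ^ 2) (fun _ _ => sq_nonneg _)
      (hN (mem_insert_self i s))).trans h3
    nlinarith
  exact Module.Finite.not_linearIndependent_of_infinite (R := ℝ)
    (M := (Submodule.span ℝ (Set.range f)).topologicalClosure)
    (fun n => ⟨f n, Submodule.le_topologicalClosure _ (Submodule.subset_span ⟨n, rfl⟩)⟩)
    (LinearIndependent.of_comp (Submodule.subtype _) h1)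

lemma no_l1 (two_sided : ∀ (N : ℕ) (a : ℕ → ℝ),
    √(∑ n ∈ range N, a n ^ 2) / 2 ≤ ‖∑ n ∈ range N, a n • f n‖ ∧
      ‖∑ n ∈ range N, a n • f n‖ ≤ 11 * √(∑ n ∈ range N, a n ^ 2)) (g : ℕ → G) {c : ℝ}
    (hc : 0 < c) (hg : ∀ i, g i ∈ (Submodule.span ℝ (Set.range f)).topologicalClosure ∧ ‖g i‖ ≤ 1)
    (h : ∀ (n : ℕ) (a : ℕ → ℝ), c * ∑ i ∈ range n, |a i| ≤ ‖∑ i ∈ range n, a i • g i‖) :
    False := by
  have h1 : ∀ i, ∃ a : ℕ →₀ ℝ, ‖g i - a.sum fun n r => r • f n‖ ≤ c / 2 := fun i => by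
    obtain ⟨y, hy, hd⟩ := Metric.mem_closure_iff.1 (hg i).1 (c / 2) (half_pos hc)
    obtain ⟨a, rfl⟩ := Finsupp.mem_span_range_iff_exists_finsupp.1 hy
    exact ⟨a, (dist_eq_norm _ _).symm.trans_le hd.le⟩
  choose a ha using h1
  obtain ⟨k, hk⟩ := exists_nat_gt ((44 * (1 + c / 2) / c) ^ 2)
  obtain ⟨N, hN⟩ := ((range k).biUnion fun i => (a i).support).exists_nat_subset_range
  have h2 : ∀ i ∈ range k, ‖g i - ∑ n ∈ range N, a i n • f n‖ ≤ c / 2 := fun i hi => by
    rw [← Finsupp.sum_of_support_subset (a i) ((subset_biUnion_of_mem _ hi).trans hN)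
      (fun n r => r • f n) (fun _ _ => zero_smul _ _)]
    exact ha i
  have h3 : ∀ i ∈ range k, ∑ n ∈ range N, a i n ^ 2 ≤ (2 * (1 + c / 2)) ^ 2 := fun i hi => by
    refine (Real.sqrt_le_left (by positivity)).1 ?_
    have := norm_sub_norm_le (∑ n ∈ range N, a i n • f n) (g i)
    rw [norm_sub_rev] at this
    linarith [(two_sided N (a i)).1, h2 i hi, (hg i).2]
  obtain ⟨ε, e1, e2⟩ := signs N (fun i => a i) k
  have h4 := h k ε
  have h5 := (two_sided N fun n => ∑ i ∈ range k, ε i * a i n).2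
  have h6 : ∑ i ∈ range k, ε i • g i = ∑ i ∈ range k, ε i • (g i - ∑ n ∈ range N, a i n • f n) +
      ∑ n ∈ range N, (∑ i ∈ range k, ε i * a i n) • f n := by
    simp only [smul_sub, sum_sub_distrib, sum_smul, smul_sum, mul_smul]
    rw [sum_comm (s := range N), sub_add_cancel]
  have h7 : ‖∑ i ∈ range k, ε i • (g i - ∑ n ∈ range N, a i n • f n)‖ ≤ k * (c / 2) := by
    refine (norm_sum_le _ _).trans ((sum_le_sum (g := fun _ => c / 2) fun i hi => ?_).trans
      (by simp))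
    rw [norm_smul, Real.norm_eq_abs, e1, one_mul]
    exact h2 i hi
  have h8 := e2.trans (sum_le_sum h3)
  simp only [e1, sum_const, card_range, nsmul_eq_mul, mul_one] at h4 h8
  rw [h6] at h4
  have h9 := h4.trans (norm_add_le _ _)
  have k0 : (0 : ℝ) < k := lt_of_le_of_lt (sq_nonneg _) hk
  have h10 : √(∑ n ∈ range N, (∑ i ∈ range k, ε i * a i n) ^ 2) < c * k / 22 := by
    refine Real.sqrt_lt' (by positivity) |>.2 (h8.trans_lt ?_)
    rw [div_pow, div_lt_iff₀ (by positivity)] at hk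
    nlinarith [mul_lt_mul_of_pos_left hk k0]
  linarith

end Pool.Agent.H.MP_6eec66_an
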